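import Pool.Agent.W4.VC.Stms

set_option autoImplicit false

namespace Pool.Agent.W349.VC

open Finset Polynomial Pool.Agent.W4.CF Pool.Agent.W4.VC

/-- pairs with the same determinant with a fixed pair differ by a small multiple of it -/
theorem line (Y : ℝ) (hY : 1 ≤ Y) (p0 p1 p : ℤ × ℤ) (h0 : Dy Y p0) (h1 : Dy Y p1) (h : Dy Y p)
    (hd : p0.1 * p.2 - p.1 * p0.2 = p0.1 * p1.2 - p1.1 * p0.2) :
    ∃ t ∈ Icc (-4 : ℤ) 4, (p1.1 + t * p0.1, p1.2 + t * p0.2) = p := by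
  obtain ⟨hc0, -, -, hm0⟩ := h0
  obtain ⟨-, ha1, hb1, -⟩ := h1
  obtain ⟨-, ha, hb, -⟩ := h
  obtain ⟨u, v, huv⟩ := hc0
  set t : ℤ := u * (p.1 - p1.1) + v * (p.2 - p1.2) with ht
  have e1 : t * p0.1 = p.1 - p1.1 := by
    rw [ht]
    linear_combination (p.1 - p1.1) * huv + v * hd
  have e2 : t * p0.2 = p.2 - p1.2 := by
    rw [ht]
    linear_combination (p.2 - p1.2) * huv - u * hd
  have hYp : 0 < Y := by linarith
  have e1' : (t : ℝ) * p0.1 = p.1 - p1.1 := by exact_mod_cast e1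
  have e2' : (t : ℝ) * p0.2 = p.2 - p1.2 := by exact_mod_cast e2
  have ht4 : |(t : ℝ)| ≤ 4 := by
    have h3 : |(t : ℝ)| * max |(p0.1 : ℝ)| |(p0.2 : ℝ)| ≤ 2 * Y := by
      rcases le_total |(p0.1 : ℝ)| |(p0.2 : ℝ)| with hle | hle
      · rw [max_eq_right hle, ← abs_mul, e2']
        refine (abs_sub _ _).trans ?_
        linarith
      · rw [max_eq_left hle, ← abs_mul, e1']
        refine (abs_sub _ _).trans ?_
        linarith
    by_contra hlt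
    push Not at hlt
    have h4 : 4 * (Y / 2) < |(t : ℝ)| * max |(p0.1 : ℝ)| |(p0.2 : ℝ)| := by
      apply mul_lt_mul hlt _ (by positivity) (abs_nonneg _)
      linarith
    linarith
  refine ⟨t, ?_, ?_⟩
  · rw [mem_Icc]
    rw [abs_le] at ht4
    constructor
    · have := ht4.1
      exact_mod_cast this
    · have := ht4.2
      exact_mod_cast this
  · rw [e1, e2]
    ext <;> simp

theorem fib (Y W : ℝ) (N : ℕ) (hY : 1 ≤ Y) (hN : 1 ≤ N) (T : Finset (ℤ × ℤ))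
    (hT : ∀ p ∈ T, Dy Y p) (hdet : ∀ p ∈ T, ∀ p' ∈ T, (N : ℤ) ∣ p.1 * p'.2 - p'.1 * p.2 ∧
      |((p.1 * p'.2 - p'.1 * p.2 : ℤ) : ℝ)| ≤ W) :
    T.card ≤ 9 * (2 * ⌊W / N⌋₊ + 1) := by
  classical
  rcases T.eq_empty_or_nonempty with rfl | ⟨p0, hp0⟩
  · simp
  have hN0 : (0 : ℝ) < N := by exact_mod_cast hN
  set k : ℤ × ℤ → ℤ := fun p => (p0.1 * p.2 - p.1 * p0.2) / N with hk
  have hkN : ∀ p ∈ T, k p * N = p0.1 * p.2 - p.1 * p0.2 := fun p hp =>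
    Int.ediv_mul_cancel (hdet p0 hp0 p hp).1
  set M := ⌊W / N⌋₊ with hM
  have hmaps : ∀ p ∈ T, k p ∈ Icc (-(M : ℤ)) M := by
    intro p hp
    have h1 := (hdet p0 hp0 p hp).2
    rw [← hkN p hp] at h1
    push_cast at h1
    rw [abs_mul, abs_of_pos hN0, ← le_div_iff₀ hN0] at h1
    have h2 : ((k p).natAbs : ℝ) ≤ W / N := by
      rw [Nat.cast_natAbs, Int.cast_abs]
      exact h1
    have h3 : (k p).natAbs ≤ M := Nat.le_floor h2
    rw [mem_Icc]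
    omega
  have hfib : ∀ q ∈ Icc (-(M : ℤ)) M, (T.filter (fun p => k p = q)).card ≤ 9 := by
    intro q _
    rcases (T.filter (fun p => k p = q)).eq_empty_or_nonempty with h | ⟨p1, hp1⟩
    · rw [h]; simp
    · rw [mem_filter] at hp1
      have hsub : T.filter (fun p => k p = q) ⊆
          (Icc (-4 : ℤ) 4).image (fun t => (p1.1 + t * p0.1, p1.2 + t * p0.2)) := by
        intro p hp
        rw [mem_filter] at hp
        rw [mem_image]
        apply line Y hY p0 p1 p (hT _ hp0) (hT _ hp1.1) (hT _ hp.1)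
        rw [← hkN p hp.1, ← hkN p1 hp1.1, hp.2, hp1.2]
      refine (card_le_card hsub).trans (card_image_le.trans ?_)
      rw [Int.card_Icc]
      norm_num
  have h := card_le_mul_card_image_of_maps_to hmaps 9 hfib
  rw [Int.card_Icc] at h
  have h2 : ((M : ℤ) + 1 - -(M : ℤ)).toNat = 2 * M + 1 := by omega
  rw [h2] at h
  exact h

theorem t_LAT (hCLS : S_CLS) (hSEP : S_SEP) : S_LAT := by
  intro f n hf hn ε hε
  obtain ⟨C0, hC0, hcls⟩ := hCLS f n hf ε hε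
  obtain ⟨ℓ, C1, hC1, hnorm, hsep⟩ := hSEP f n hf hn
  have hn0 : (0 : ℝ) < n := by exact_mod_cast hn
  refine ⟨C0 * n * 9 * (4 * C1 * 2 ^ (n - 1) + 1), by positivity, ?_⟩
  intro Y ρ N hY hρ hN s hs
  obtain ⟨κ, L, hLcard, hκL, hκdet⟩ := hcls N hN
  classical
  have hY0 : 0 < Y := by linarith
  have hN0 : (0 : ℝ) < N := by exact_mod_cast hN
  set V : ℝ := C1 * ρ * (2 / Y) ^ (n - 1) with hV
  have hV0 : 0 ≤ V := by positivity
  have hj : ∀ p : ℤ × ℤ, ∃ j : Fin n, p ∈ s →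
      ‖(ℓ j).1 * (p.1 : ℂ) + (ℓ j).2 * (p.2 : ℂ)‖ ≤ V := by
    intro p
    by_cases hp : p ∈ s
    · obtain ⟨j, hj⟩ := hsep p.1 p.2
      refine ⟨j, fun _ => ?_⟩
      obtain ⟨⟨-, -, -, hm⟩, -, hρp⟩ := hs p hp
      have h1 : (Y / 2) ^ (n - 1) ≤ (max |(p.1 : ℝ)| |(p.2 : ℝ)|) ^ (n - 1) :=
        pow_le_pow_left₀ (by positivity) (by linarith) _
      have h2 : ‖(ℓ j).1 * (p.1 : ℂ) + (ℓ j).2 * (p.2 : ℂ)‖ * (Y / 2) ^ (n - 1) ≤ C1 * ρ :=
        (mul_le_mul_of_nonneg_left h1 (norm_nonneg _)).trans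
          (hj.trans (mul_le_mul_of_nonneg_left hρp hC1.le))
      have h3 : (Y / 2) ^ (n - 1) * (2 / Y) ^ (n - 1) = 1 := by
        rw [← mul_pow]
        have : Y / 2 * (2 / Y) = 1 := by field_simp
        rw [this, one_pow]
      calc ‖(ℓ j).1 * (p.1 : ℂ) + (ℓ j).2 * (p.2 : ℂ)‖ =
          ‖(ℓ j).1 * (p.1 : ℂ) + (ℓ j).2 * (p.2 : ℂ)‖ * (Y / 2) ^ (n - 1) * (2 / Y) ^ (n - 1) := by
            rw [mul_assoc, h3, mul_one]
        _ ≤ C1 * ρ * (2 / Y) ^ (n - 1) := mul_le_mul_of_nonneg_right h2 (by positivity)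
    · exact ⟨⟨0, hn⟩, fun h => absurd h hp⟩
  choose J hJ using hj
  have hfib : ∀ t ∈ L ×ˢ (univ : Finset (Fin n)), (s.filter (fun p => (κ p, J p) = t)).card ≤
      9 * (2 * ⌊2 * V * Y / N⌋₊ + 1) := by
    rintro ⟨c, j⟩ -
    apply fib Y (2 * V * Y) N hY hN
    · intro p hp
      exact (hs p (mem_filter.1 hp).1).1
    · intro p hp p' hp'
      rw [mem_filter, Prod.mk.injEq] at hp hp'
      obtain ⟨hps, hpc, hpj⟩ := hp
      obtain ⟨hps', hpc', hpj'⟩ := hp'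
      obtain ⟨⟨hco, ha, hb, -⟩, hdv, -⟩ := hs p hps
      obtain ⟨⟨hco', ha', hb', -⟩, hdv', -⟩ := hs p' hps'
      refine ⟨hκdet p p' hco hco' hdv hdv' (by rw [hpc, hpc']), ?_⟩
      have h1 := hJ p hps
      have h2 := hJ p' hps'
      rw [hpj] at h1
      rw [hpj'] at h2
      have h3 : |((p.1 * p'.2 - p'.1 * p.2 : ℤ) : ℝ)| =
          ‖((p.1 : ℂ) * p'.2 - p'.1 * p.2)‖ := by
        have := Complex.norm_intCast (p.1 * p'.2 - p'.1 * p.2)
        rw [← this]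
        push_cast
        rfl
      rw [h3]
      rcases hnorm j with h4 | h4
      · have h5 : ‖((p.1 : ℂ) * p'.2 - p'.1 * p.2)‖ =
            ‖(p'.2 : ℂ) * ((ℓ j).1 * (p.1 : ℂ) + (ℓ j).2 * (p.2 : ℂ)) -
              (p.2 : ℂ) * ((ℓ j).1 * (p'.1 : ℂ) + (ℓ j).2 * (p'.2 : ℂ))‖ := by
          have e : (p'.2 : ℂ) * ((ℓ j).1 * (p.1 : ℂ) + (ℓ j).2 * (p.2 : ℂ)) -
              (p.2 : ℂ) * ((ℓ j).1 * (p'.1 : ℂ) + (ℓ j).2 * (p'.2 : ℂ)) =
              (ℓ j).1 * ((p.1 : ℂ) * p'.2 - p'.1 * p.2) := by ring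
          rw [e, norm_mul, h4, one_mul]
        rw [h5]
        refine (norm_sub_le _ _).trans ?_
        rw [norm_mul, norm_mul, Complex.norm_intCast, Complex.norm_intCast]
        have := mul_le_mul hb' h1 (norm_nonneg _) hY0.le
        have := mul_le_mul hb h2 (norm_nonneg _) hY0.le
        linarith
      · have h5 : ‖((p.1 : ℂ) * p'.2 - p'.1 * p.2)‖ =
            ‖(p.1 : ℂ) * ((ℓ j).1 * (p'.1 : ℂ) + (ℓ j).2 * (p'.2 : ℂ)) -
              (p'.1 : ℂ) * ((ℓ j).1 * (p.1 : ℂ) + (ℓ j).2 * (p.2 : ℂ))‖ := by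
          have e : (p.1 : ℂ) * ((ℓ j).1 * (p'.1 : ℂ) + (ℓ j).2 * (p'.2 : ℂ)) -
              (p'.1 : ℂ) * ((ℓ j).1 * (p.1 : ℂ) + (ℓ j).2 * (p.2 : ℂ)) =
              (ℓ j).2 * ((p.1 : ℂ) * p'.2 - p'.1 * p.2) := by ring
          rw [e, norm_mul, h4, one_mul]
        rw [h5]
        refine (norm_sub_le _ _).trans ?_
        rw [norm_mul, norm_mul, Complex.norm_intCast, Complex.norm_intCast]
        have := mul_le_mul ha h2 (norm_nonneg _) hY0.le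
        have := mul_le_mul ha' h1 (norm_nonneg _) hY0.le
        linarith
  have hmaps : ∀ p ∈ s, (κ p, J p) ∈ L ×ˢ (univ : Finset (Fin n)) := by
    intro p hp
    rw [mem_product]
    exact ⟨hκL p (hs p hp).1.1 (hs p hp).2.1, mem_univ _⟩
  have hcard := card_le_mul_card_image_of_maps_to hmaps _ hfib
  rw [card_product, card_univ, Fintype.card_fin] at hcard
  have hcard' : (s.card : ℝ) ≤ 9 * (2 * (⌊2 * V * Y / N⌋₊ : ℝ) + 1) * ((L.card : ℝ) * n) := by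
    exact_mod_cast hcard
  have hfl : (⌊2 * V * Y / N⌋₊ : ℝ) ≤ 2 * V * Y / N := Nat.floor_le (by positivity)
  set R : ℝ := ρ * Y ^ 2 / (Y ^ n * N) with hR
  have hR0 : 0 ≤ R := by positivity
  have hVY : V * Y / N = C1 * 2 ^ (n - 1) * R := by
    rw [hV, hR, div_pow]
    obtain ⟨m, rfl⟩ : ∃ m, n = m + 1 := ⟨n - 1, by omega⟩
    simp only [Nat.add_sub_cancel]
    rw [pow_succ Y m]
    field_simp
  have hP : (0 : ℝ) ≤ (N : ℝ) ^ ε := by positivity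
  have h1 : 9 * (2 * (⌊2 * V * Y / N⌋₊ : ℝ) + 1) ≤ 9 * (4 * C1 * 2 ^ (n - 1) + 1) * (R + 1) := by
    have e : 2 * V * Y / N = 2 * (C1 * 2 ^ (n - 1) * R) := by
      rw [← hVY]
      ring
    have hfl' := hfl.trans_eq e
    have h5 : 0 ≤ C1 * 2 ^ (n - 1) := by positivity
    have h7 : 9 * (4 * C1 * 2 ^ (n - 1) + 1) * (R + 1) =
      36 * (C1 * 2 ^ (n - 1) * R) + 36 * (C1 * 2 ^ (n - 1)) + 9 * R + 9 := by ring
    rw [h7]
    linarith
  calc (s.card : ℝ) ≤ 9 * (2 * (⌊2 * V * Y / N⌋₊ : ℝ) + 1) * ((L.card : ℝ) * n) := hcard'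
    _ ≤ 9 * (4 * C1 * 2 ^ (n - 1) + 1) * (R + 1) * ((C0 * (N : ℝ) ^ ε) * n) := by
        apply mul_le_mul h1 (mul_le_mul_of_nonneg_right hLcard hn0.le) (by positivity)
          (by positivity)
    _ = _ := by ring

end Pool.Agent.W349.VC
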