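import Pool.Agent.W4.VC.Stms

set_option autoImplicit false

namespace Pool.Agent.W349.VC

open Finset Polynomial Pool.Agent.W4.CF Pool.Agent.W4.VC

theorem sep_gen (s : Finset (ℂ × ℂ)) (hs : s.Nonempty)
    (hdet : ∀ l ∈ s, ∀ l' ∈ s, l ≠ l' → l.1 * l'.2 - l'.1 * l.2 ≠ 0) :
    ∃ C : ℝ, 0 < C ∧ ∀ a b : ℂ, ∃ l ∈ s,
      ‖l.1 * a + l.2 * b‖ * (max ‖a‖ ‖b‖) ^ (s.card - 1) ≤
        C * ‖∏ l ∈ s, (l.1 * a + l.2 * b)‖ := by
  classical
  set κ : (ℂ × ℂ) × (ℂ × ℂ) → ℝ := fun p =>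
    (‖p.1.1‖ + ‖p.1.2‖ + ‖p.2.1‖ + ‖p.2.2‖) / ‖p.1.1 * p.2.2 - p.2.1 * p.1.2‖ with hκ
  have hκ0 : ∀ p, 0 ≤ κ p := fun p => by
    simp only [hκ]
    positivity
  set K : ℝ := ∑ p ∈ s ×ˢ s, κ p with hK
  have hK0 : 0 ≤ K := sum_nonneg fun p _ => hκ0 p
  have hKp : ∀ l ∈ s, ∀ l' ∈ s, κ (l, l') ≤ K := by
    intro l hl l' hl'
    exact single_le_sum (fun p _ => hκ0 p) (mem_product.2 ⟨hl, hl'⟩)
  have hmain : ∀ l ∈ s, ∀ l' ∈ s, l ≠ l' → ∀ a b : ℂ,
      max ‖a‖ ‖b‖ ≤ K * (‖l.1 * a + l.2 * b‖ + ‖l'.1 * a + l'.2 * b‖) := by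
    intro l hl l' hl' hne a b
    have hd := hdet l hl l' hl' hne
    have hd0 : 0 < ‖l.1 * l'.2 - l'.1 * l.2‖ := norm_pos_iff.2 hd
    set u := l.1 * a + l.2 * b with hu
    set v := l'.1 * a + l'.2 * b with hv
    have e1 : (l.1 * l'.2 - l'.1 * l.2) * a = l'.2 * u - l.2 * v := by rw [hu, hv]; ring
    have e2 : (l.1 * l'.2 - l'.1 * l.2) * b = l.1 * v - l'.1 * u := by rw [hu, hv]; ring
    have hu0 := norm_nonneg u
    have hv0 := norm_nonneg v
    have h1 := norm_nonneg l.1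
    have h2 := norm_nonneg l.2
    have h3 := norm_nonneg l'.1
    have h4 := norm_nonneg l'.2
    have hkk : κ (l, l') * ‖l.1 * l'.2 - l'.1 * l.2‖ = ‖l.1‖ + ‖l.2‖ + ‖l'.1‖ + ‖l'.2‖ := by
      simp only [hκ]
      rw [div_mul_cancel₀ _ hd0.ne']
    have ha : ‖a‖ ≤ κ (l, l') * (‖u‖ + ‖v‖) := by
      have h5 : ‖l.1 * l'.2 - l'.1 * l.2‖ * ‖a‖ ≤ (‖l.1‖ + ‖l.2‖ + ‖l'.1‖ + ‖l'.2‖) * (‖u‖ + ‖v‖) := by
        rw [← norm_mul, e1]
        refine (norm_sub_le _ _).trans ?_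
        rw [norm_mul, norm_mul]
        nlinarith [mul_nonneg h1 hu0, mul_nonneg h1 hv0, mul_nonneg h2 hu0, mul_nonneg h2 hv0,
          mul_nonneg h3 hu0, mul_nonneg h3 hv0, mul_nonneg h4 hu0, mul_nonneg h4 hv0]
      rw [← hkk] at h5
      have h6 : ‖l.1 * l'.2 - l'.1 * l.2‖ * ‖a‖ ≤
          ‖l.1 * l'.2 - l'.1 * l.2‖ * (κ (l, l') * (‖u‖ + ‖v‖)) := by linarith
      exact le_of_mul_le_mul_left h6 hd0
    have hb : ‖b‖ ≤ κ (l, l') * (‖u‖ + ‖v‖) := by
      have h5 : ‖l.1 * l'.2 - l'.1 * l.2‖ * ‖b‖ ≤ (‖l.1‖ + ‖l.2‖ + ‖l'.1‖ + ‖l'.2‖) * (‖u‖ + ‖v‖) := by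
        rw [← norm_mul, e2]
        refine (norm_sub_le _ _).trans ?_
        rw [norm_mul, norm_mul]
        nlinarith [mul_nonneg h1 hu0, mul_nonneg h1 hv0, mul_nonneg h2 hu0, mul_nonneg h2 hv0,
          mul_nonneg h3 hu0, mul_nonneg h3 hv0, mul_nonneg h4 hu0, mul_nonneg h4 hv0]
      rw [← hkk] at h5
      have h6 : ‖l.1 * l'.2 - l'.1 * l.2‖ * ‖b‖ ≤
          ‖l.1 * l'.2 - l'.1 * l.2‖ * (κ (l, l') * (‖u‖ + ‖v‖)) := by linarith
      exact le_of_mul_le_mul_left h6 hd0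
    exact (max_le ha hb).trans (mul_le_mul_of_nonneg_right (hKp l hl l' hl') (by positivity))
  refine ⟨(2 * (K + 1)) ^ (s.card - 1), by positivity, ?_⟩
  intro a b
  obtain ⟨l0, hl0, hmin⟩ := s.exists_min_image (fun l => ‖l.1 * a + l.2 * b‖) hs
  refine ⟨l0, hl0, ?_⟩
  have h1 : (max ‖a‖ ‖b‖) ^ (s.card - 1) ≤
      ∏ l ∈ s.erase l0, (2 * (K + 1) * ‖l.1 * a + l.2 * b‖) := by
    rw [← card_erase_of_mem hl0, ← prod_const]
    apply prod_le_prod
    · intro i _
      positivity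
    · intro l hl
      rw [mem_erase] at hl
      refine (hmain l hl.2 l0 hl0 hl.1 a b).trans ?_
      have h2 : ‖l0.1 * a + l0.2 * b‖ ≤ ‖l.1 * a + l.2 * b‖ := hmin l hl.2
      have h3 := norm_nonneg (l.1 * a + l.2 * b)
      nlinarith
  rw [prod_mul_distrib, prod_const, card_erase_of_mem hl0] at h1
  rw [norm_prod, ← mul_prod_erase _ _ hl0]
  calc ‖l0.1 * a + l0.2 * b‖ * max ‖a‖ ‖b‖ ^ (s.card - 1)
      ≤ ‖l0.1 * a + l0.2 * b‖ * ((2 * (K + 1)) ^ (s.card - 1) *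
        ∏ l ∈ s.erase l0, ‖l.1 * a + l.2 * b‖) := mul_le_mul_of_nonneg_left h1 (norm_nonneg _)
    _ = _ := by ring

theorem hom_prod (f : ℤ[X]) (n : ℕ) (h : Sqf f n) : ∃ (s : Finset (ℂ × ℂ)) (c : ℂ), c ≠ 0 ∧
    s.card = n ∧ (∀ l ∈ s, ‖l.1‖ = 1 ∨ ‖l.2‖ = 1) ∧
    (∀ l ∈ s, ∀ l' ∈ s, l ≠ l' → l.1 * l'.2 - l'.1 * l.2 ≠ 0) ∧
    ∀ a b : ℤ, ((hom f n a b : ℤ) : ℂ) = c * ∏ l ∈ s, (l.1 * (a : ℂ) + l.2 * (b : ℂ)) := by
  classical
  obtain ⟨hsq, hle, hge⟩ := h
  have hsep : (f.map (Int.castRingHom ℚ)).Separable := PerfectField.separable_iff_squarefree.2 hsq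
  set g : ℂ[X] := f.map (Int.castRingHom ℂ) with hg
  have hg' : g = (f.map (Int.castRingHom ℚ)).map (algebraMap ℚ ℂ) := by
    rw [hg, Polynomial.map_map]
    congr 1
  have hgsep : g.Separable := by
    rw [hg']
    exact hsep.map
  have hnd : g.roots.Nodup := nodup_roots hgsep
  have hdeg : g.natDegree = f.natDegree :=
    natDegree_map_eq_of_injective (RingHom.injective_int _) f
  have hf0 : f ≠ 0 := by
    rintro rfl
    rw [Polynomial.map_zero] at hsq
    exact not_squarefree_zero hsq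
  have hg0 : g ≠ 0 := (Polynomial.map_ne_zero_iff (RingHom.injective_int _)).2 hf0
  have hcard : g.roots.card = g.natDegree :=
    (IsAlgClosed.splits g).natDegree_eq_card_roots.symm
  set R := g.roots.toFinset with hR
  have hRval : R.val = g.roots := by
    rw [hR, Multiset.toFinset_val, Multiset.dedup_eq_self.2 hnd]
  have hRcard : R.card = f.natDegree := by
    rw [← hdeg, ← hcard, ← hRval]
    rfl
  have hfac : g = C g.leadingCoeff * ∏ α ∈ R, (X - C α) := by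
    have h1 := (IsAlgClosed.splits g).eq_prod_roots
    conv_lhs => rw [h1]
    rw [← hRval]
    rfl
  set s0 : Finset (ℂ × ℂ) := R.image (fun α => ((1 : ℂ), -α)) with hs0
  have hinj : Function.Injective (fun α : ℂ => ((1 : ℂ), -α)) := by
    intro x y hxy
    have := congrArg Prod.snd hxy
    simpa using this
  have hs0card : s0.card = f.natDegree := by
    rw [hs0, card_image_of_injective _ hinj, hRcard]
  have hprod0 : ∀ a b : ℂ, ∏ l ∈ s0, (l.1 * a + l.2 * b) = ∏ α ∈ R, (a - α * b) := by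
    intro a b
    rw [hs0, prod_image (fun x _ y _ hxy => hinj hxy)]
    apply prod_congr rfl
    intro α _
    simp only
    ring
  have hs0n : ∀ l ∈ s0, ‖l.1‖ = 1 := by
    intro l hl
    rw [hs0, mem_image] at hl
    obtain ⟨α, -, rfl⟩ := hl
    simp
  have hs0d : ∀ l ∈ s0, ∀ l' ∈ s0, l ≠ l' → l.1 * l'.2 - l'.1 * l.2 ≠ 0 := by
    intro l hl l' hl' hne
    rw [hs0, mem_image] at hl hl'
    obtain ⟨α, -, rfl⟩ := hl
    obtain ⟨α', -, rfl⟩ := hl'
    intro h0
    apply hne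
    simp only at h0
    have : α = α' := by linear_combination h0
    rw [this]
  -- the value of the form
  have hval : ∀ a b : ℤ, ((hom f n a b : ℤ) : ℂ) =
      g.leadingCoeff * ((b : ℂ) ^ (n - f.natDegree) * ∏ α ∈ R, ((a : ℂ) - α * b)) := by
    intro a b
    have h1 : ((hom f n a b : ℤ) : ℂ) = ∑ j ∈ range (n + 1), g.coeff j * (a : ℂ) ^ j * (b : ℂ) ^ (n - j) := by
      unfold hom
      push_cast
      apply sum_congr rfl
      intro j _
      rw [hg, coeff_map]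
      simp
    rw [h1]
    by_cases hb : (b : ℂ) = 0
    · rw [hb]
      have h2 : ∑ j ∈ range (n + 1), g.coeff j * (a : ℂ) ^ j * (0 : ℂ) ^ (n - j) =
          g.coeff n * (a : ℂ) ^ n := by
        rw [sum_eq_single n]
        · simp
        · intro j hj hjn
          rw [mem_range] at hj
          rw [zero_pow (by omega), mul_zero]
        · intro hn
          exact absurd (mem_range.2 (by omega)) hn
      rw [h2]
      rcases Nat.lt_or_ge f.natDegree n with hlt | hge'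
      · rw [coeff_eq_zero_of_natDegree_lt (by omega), zero_pow (by omega)]
        simp
      · have hn : f.natDegree = n := by omega
        rw [hn, Nat.sub_self, pow_zero, one_mul]
        have h3 : g.coeff n = g.leadingCoeff := by rw [← hn, ← hdeg]; rfl
        rw [h3]
        congr 1
        simp only [mul_zero, sub_zero]
        rw [prod_const, hRcard, hn]
    · have h2 : ∑ j ∈ range (n + 1), g.coeff j * (a : ℂ) ^ j * (b : ℂ) ^ (n - j) =
          (b : ℂ) ^ n * g.eval ((a : ℂ) / b) := by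
        rw [eval_eq_sum_range' (n := n + 1) (by omega), mul_sum]
        apply sum_congr rfl
        intro j hj
        rw [mem_range] at hj
        have h4 : (b : ℂ) ^ n = (b : ℂ) ^ (n - j) * (b : ℂ) ^ j := by
          rw [← pow_add]
          congr 1
          omega
        rw [h4, div_pow]
        field_simp
      rw [h2]
      conv_lhs => rw [hfac]
      rw [eval_mul, eval_C, eval_prod]
      have h3 : (b : ℂ) ^ n = (b : ℂ) ^ (n - f.natDegree) * ∏ α ∈ R, (b : ℂ) := by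
        rw [prod_const, hRcard, ← pow_add]
        congr 1
        omega
      rw [h3]
      have h4 : (∏ α ∈ R, (b : ℂ)) * ∏ j ∈ R, eval ((a : ℂ) / b) (X - C j) =
          ∏ α ∈ R, ((a : ℂ) - α * b) := by
        rw [← prod_mul_distrib]
        apply prod_congr rfl
        intro α _
        rw [eval_sub, eval_X, eval_C]
        field_simp
      rw [← h4]
      ring
  rcases Nat.lt_or_ge f.natDegree n with hlt | hge'
  · have hn : n = f.natDegree + 1 := by omega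
    have hnot : ((0 : ℂ), (1 : ℂ)) ∉ s0 := by
      intro hmem
      have := hs0n _ hmem
      simp at this
    refine ⟨insert ((0 : ℂ), (1 : ℂ)) s0, g.leadingCoeff, leadingCoeff_ne_zero.2 hg0, ?_, ?_, ?_, ?_⟩
    · rw [card_insert_of_notMem hnot, hs0card, hn]
    · intro l hl
      rcases mem_insert.1 hl with rfl | hl
      · right; simp
      · left; exact hs0n l hl
    · intro l hl l' hl' hne
      have h1 : ∀ l ∈ s0, l.1 = 1 := by
        intro l hl
        rw [hs0, mem_image] at hl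
        obtain ⟨α, -, rfl⟩ := hl
        rfl
      rcases mem_insert.1 hl with rfl | hl
      · rcases mem_insert.1 hl' with rfl | hl'
        · exact absurd rfl hne
        · rw [h1 _ hl']
          simp
      · rcases mem_insert.1 hl' with rfl | hl'
        · rw [h1 _ hl]
          simp
        · exact hs0d l hl l' hl' hne
    · intro a b
      rw [hval, prod_insert hnot, hprod0]
      have : n - f.natDegree = 1 := by omega
      rw [this]
      ring
  · have hn : f.natDegree = n := by omega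
    refine ⟨s0, g.leadingCoeff, leadingCoeff_ne_zero.2 hg0, by rw [hs0card, hn], fun l hl => Or.inl (hs0n l hl),
      hs0d, ?_⟩
    intro a b
    rw [hval, hprod0]
    have : n - f.natDegree = 0 := by omega
    rw [this]
    ring

theorem t_SEP : S_SEP := by
  intro f n hf hn
  obtain ⟨s, c, hc, hcard, hnorm, hdet, hprod⟩ := hom_prod f n hf
  have hsne : s.Nonempty := by
    rw [← card_pos, hcard]
    omega
  obtain ⟨C, hC, hmain⟩ := sep_gen s hsne hdet
  have e := s.equivFinOfCardEq hcard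
  refine ⟨fun j => (e.symm j).1, C / ‖c‖, div_pos hC (norm_pos_iff.2 hc), ?_, ?_⟩
  · intro j
    exact hnorm _ (e.symm j).2
  · intro a b
    obtain ⟨l, hl, h1⟩ := hmain (a : ℂ) (b : ℂ)
    refine ⟨e ⟨l, hl⟩, ?_⟩
    have h2 : |((hom f n a b : ℤ) : ℝ)| = ‖c‖ * ‖∏ l ∈ s, (l.1 * (a : ℂ) + l.2 * (b : ℂ))‖ := by
      rw [← norm_mul, ← hprod]
      exact (Complex.norm_intCast _).symm
    rw [h2]
    have h3 : C / ‖c‖ * (‖c‖ * ‖∏ l ∈ s, (l.1 * (a : ℂ) + l.2 * (b : ℂ))‖) =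
        C * ‖∏ l ∈ s, (l.1 * (a : ℂ) + l.2 * (b : ℂ))‖ := by
      rw [← mul_assoc, div_mul_cancel₀ _ (norm_pos_iff.2 hc).ne']
    rw [h3]
    simp only [Equiv.symm_apply_apply]
    rw [hcard] at h1
    have h4 : ‖(a : ℂ)‖ = |(a : ℝ)| := by simp
    have h5 : ‖(b : ℂ)‖ = |(b : ℝ)| := by simp
    rw [h4, h5] at h1
    exact h1

end Pool.Agent.W349.VC
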